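import Mathlib

/-!
# At most `d + 1` lines of the Wang-Shi split `WS_d` pass through an interior point
-/

set_option autoImplicit false

namespace Pool.Agent.Results.MP_e74ad6_co.Concurrency

open Finset

/-! ### The combinatorial core -/

section comb

/-- With scaled barycentric coordinates `t` (sum `d`) of the point `p`: the line through the
point at distance `x` on side `i` and the point at distance `v` on side `i + 1` contains `p`. -/
def R (t : Fin 3 → ℝ) (i : Fin 3) (x v : ℝ) : Prop :=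
  (v - t (i + 2)) * (t (i + 1) + t (i + 2) - x) = t i * t (i + 2)

variable {d : ℕ} {t : Fin 3 → ℝ}

theorem R_pos (ht : ∀ i, 0 < t i) (hs : ∀ i, t i + t (i + 1) + t (i + 2) = d) {i : Fin 3}
    {x v : ℝ} (h : R t i x v) (hx : x ≤ d) (hv : 0 < v) :
    0 < v - t (i + 2) ∧ 0 < t (i + 1) + t (i + 2) - x := by
  have h0 := ht i
  have h1 := ht (i + 1)
  have h2 := ht (i + 2)
  have h3 := hs i
  unfold R at h
  have hK : 0 < t i * t (i + 2) := mul_pos h0 h2
  rcases lt_or_ge 0 (v - t (i + 2)) with hw | hw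
  · refine ⟨hw, ?_⟩
    by_contra hy
    have hy' : t (i + 1) + t (i + 2) - x ≤ 0 := not_lt.mp hy
    have := mul_nonpos_of_nonneg_of_nonpos hw.le hy'
    linarith
  · exfalso
    rcases lt_or_ge 0 (t (i + 1) + t (i + 2) - x) with hy | hy
    · have := mul_nonpos_of_nonpos_of_nonneg hw hy.le
      linarith
    · have e1 : -(v - t (i + 2)) < t (i + 2) := by linarith
      have e2 : -(t (i + 1) + t (i + 2) - x) ≤ t i := by linarith
      rcases hy.lt_or_eq with hy1 | hy1
      · have e3 : (-(v - t (i + 2))) * (-(t (i + 1) + t (i + 2) - x)) <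
            t (i + 2) * (-(t (i + 1) + t (i + 2) - x)) :=
          mul_lt_mul_of_pos_right e1 (by linarith)
        have e4 : t (i + 2) * (-(t (i + 1) + t (i + 2) - x)) ≤ t (i + 2) * t i :=
          mul_le_mul_of_nonneg_left e2 h2.le
        nlinarith
      · rw [hy1, mul_zero] at h
        linarith

theorem mono_lt {w y w' y' : ℝ} (hw : 0 < w) (hy : 0 < y) (hw' : 0 < w')
    (h : w * y = w' * y') (hlt : w < w') : y' < y := by
  by_contra hno
  have h1 : y ≤ y' := not_lt.mp hno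
  have h2 : w * y ≤ w * y' := mul_le_mul_of_nonneg_left h1 hw.le
  have h3 : w * y' < w' * y' := mul_lt_mul_of_pos_right hlt (lt_of_lt_of_le hy h1)
  linarith

/-- The threshold on side `i`, from below. -/
theorem thr_le (ht : ∀ i, 0 < t i) (hs : ∀ i, t i + t (i + 1) + t (i + 2) = d) {i : Fin 3}
    {x v : ℝ} (h : R t i x v) (hx : x ≤ d) (hv : 0 < v) (hvd : v ≤ d) :
    x * (t i + t (i + 1)) ≤ d * t (i + 1) := by
  obtain ⟨hw, hy⟩ := R_pos ht hs h hx hv
  have h0 := ht i
  have h1 := ht (i + 1)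
  have h2 := ht (i + 2)
  have h3 := hs i
  unfold R at h
  have e1 : v - t (i + 2) ≤ t i + t (i + 1) := by linarith
  have e2 : t i * t (i + 2) ≤ (t i + t (i + 1)) * (t (i + 1) + t (i + 2) - x) := by
    rw [← h]; exact mul_le_mul_of_nonneg_right e1 hy.le
  rw [← h3]
  nlinarith

theorem thr_lt (ht : ∀ i, 0 < t i) (hs : ∀ i, t i + t (i + 1) + t (i + 2) = d) {i : Fin 3}
    {x v : ℝ} (h : R t i x v) (hx : x ≤ d) (hv : 0 < v) (hvd : v < d) :
    x * (t i + t (i + 1)) < d * t (i + 1) := by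
  obtain ⟨hw, hy⟩ := R_pos ht hs h hx hv
  have h0 := ht i
  have h1 := ht (i + 1)
  have h2 := ht (i + 2)
  have h3 := hs i
  unfold R at h
  have e1 : v - t (i + 2) < t i + t (i + 1) := by linarith
  have e2 : t i * t (i + 2) < (t i + t (i + 1)) * (t (i + 1) + t (i + 2) - x) := by
    rw [← h]; exact mul_lt_mul_of_pos_right e1 hy
  rw [← h3]
  nlinarith

/-- The threshold on side `i + 1`, from above. -/
theorem thr_ge (ht : ∀ i, 0 < t i) (hs : ∀ i, t i + t (i + 1) + t (i + 2) = d) {i : Fin 3}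
    {x v : ℝ} (h : R t i x v) (hx0 : 0 ≤ x) (hx : x ≤ d) (hv : 0 < v) :
    d * t (i + 2) ≤ v * (t (i + 1) + t (i + 2)) := by
  obtain ⟨hw, hy⟩ := R_pos ht hs h hx hv
  have h0 := ht i
  have h1 := ht (i + 1)
  have h2 := ht (i + 2)
  have h3 := hs i
  unfold R at h
  have e1 : t (i + 1) + t (i + 2) - x ≤ t (i + 1) + t (i + 2) := by linarith
  have e2 : t i * t (i + 2) ≤ (v - t (i + 2)) * (t (i + 1) + t (i + 2)) := by
    rw [← h]; exact mul_le_mul_of_nonneg_left e1 hw.le
  rw [← h3]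
  nlinarith

theorem fin3_a (i : Fin 3) : i + 1 + 1 = i + 2 := by fin_cases i <;> rfl
theorem fin3_b (i : Fin 3) : i + 1 + 2 = i := by fin_cases i <;> rfl
theorem fin3_c (i : Fin 3) : i + 2 + 1 = i := by fin_cases i <;> rfl
theorem fin3_d (i : Fin 3) : i + 2 + 2 = i + 1 := by fin_cases i <;> rfl

open scoped Classical in
/-- The set of lines through `p`, coded by side and the two distances. -/
noncomputable def G (d : ℕ) (t : Fin 3 → ℝ) : Finset (Fin 3 × ℕ × ℕ) :=
  ((univ : Finset (Fin 3)) ×ˢ (range d ×ˢ range d)).filter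
    (fun g => 0 < g.2.2 ∧ R t g.1 g.2.1 g.2.2)

theorem mem_G {g : Fin 3 × ℕ × ℕ} : g ∈ G d t ↔
    g.2.1 < d ∧ g.2.2 < d ∧ 0 < g.2.2 ∧ R t g.1 g.2.1 g.2.2 := by
  simp only [G, mem_filter, mem_product, mem_univ, mem_range, true_and]
  tauto

/-- The first boundary point of a line. -/
def al (g : Fin 3 × ℕ × ℕ) : Fin 3 × ℕ := (g.1, g.2.1)
/-- The second boundary point of a line. -/
def be (g : Fin 3 × ℕ × ℕ) : Fin 3 × ℕ := (g.1 + 1, g.2.2)
/-- The next division point on the boundary. -/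
def sc (d : ℕ) (q : Fin 3 × ℕ) : Fin 3 × ℕ := if q.2 + 1 < d then (q.1, q.2 + 1) else (q.1 + 1, 0)

open scoped Classical in
/-- The used boundary points. -/
noncomputable def U (d : ℕ) (t : Fin 3 → ℝ) : Finset (Fin 3 × ℕ) :=
  (G d t).image al ∪ (G d t).image be

theorem mem_U {q : Fin 3 × ℕ} : q ∈ U d t ↔ (∃ g ∈ G d t, al g = q) ∨ (∃ g ∈ G d t, be g = q) := by
  classical
  simp only [U, mem_union, mem_image]

/-- Boundary points: at most one line through each, first coordinates. -/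
theorem al_inj (ht : ∀ i, 0 < t i) (hs : ∀ i, t i + t (i + 1) + t (i + 2) = d) :
    Set.InjOn al (G d t : Set (Fin 3 × ℕ × ℕ)) := by
  rintro ⟨i, x, v⟩ hg ⟨i', x', v'⟩ hg' h
  simp only [al, Prod.mk.injEq] at h
  obtain ⟨rfl, rfl⟩ := h
  obtain ⟨h1, h2, h3, h4⟩ := mem_G.mp hg
  obtain ⟨h1', h2', h3', h4'⟩ := mem_G.mp hg'
  simp only at h1 h2 h3 h4 h1' h2' h3' h4'
  obtain ⟨-, hy⟩ := R_pos ht hs h4 (by exact_mod_cast h1.le) (by exact_mod_cast h3)
  unfold R at h4 h4'
  have h5 : (v : ℝ) - t (i + 2) = v' - t (i + 2) :=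
    mul_right_cancel₀ hy.ne' (h4.trans h4'.symm)
  have h6 : (v : ℝ) = v' := by linarith
  have h7 : v = v' := by exact_mod_cast h6
  rw [h7]

theorem be_inj (ht : ∀ i, 0 < t i) (hs : ∀ i, t i + t (i + 1) + t (i + 2) = d) :
    Set.InjOn be (G d t : Set (Fin 3 × ℕ × ℕ)) := by
  rintro ⟨i, x, v⟩ hg ⟨i', x', v'⟩ hg' h
  simp only [be, Prod.mk.injEq, add_left_inj] at h
  obtain ⟨rfl, rfl⟩ := h
  obtain ⟨h1, h2, h3, h4⟩ := mem_G.mp hg
  obtain ⟨h1', h2', h3', h4'⟩ := mem_G.mp hg'
  simp only at h1 h2 h3 h4 h1' h2' h3' h4'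
  obtain ⟨hw, -⟩ := R_pos ht hs h4 (by exact_mod_cast h1.le) (by exact_mod_cast h3)
  unfold R at h4 h4'
  have h5 : t (i + 1) + t (i + 2) - (x : ℝ) = t (i + 1) + t (i + 2) - x' :=
    mul_left_cancel₀ hw.ne' (h4.trans h4'.symm)
  have h6 : (x : ℝ) = x' := by linarith
  have h7 : x = x' := by exact_mod_cast h6
  rw [h7]

theorem al_ne_be (ht : ∀ i, 0 < t i) (hs : ∀ i, t i + t (i + 1) + t (i + 2) = d)
    {g g' : Fin 3 × ℕ × ℕ} (hg : g ∈ G d t) (hg' : g' ∈ G d t) : al g ≠ be g' := by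
  obtain ⟨i, x, v⟩ := g
  obtain ⟨i', x', v'⟩ := g'
  intro h
  simp only [al, be, Prod.mk.injEq] at h
  obtain ⟨rfl, rfl⟩ := h
  obtain ⟨h1, h2, h3, h4⟩ := mem_G.mp hg
  obtain ⟨h1', h2', h3', h4'⟩ := mem_G.mp hg'
  simp only at h1 h2 h3 h4 h1' h2' h3' h4'
  have e1 := thr_lt ht hs h4 (by exact_mod_cast h1.le) (by exact_mod_cast h3)
    (by exact_mod_cast h2)
  have e2 := thr_ge ht hs h4' (Nat.cast_nonneg _) (by exact_mod_cast h1'.le)
    (by exact_mod_cast h3')
  rw [fin3_a] at e1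
  linarith

theorem card_U (ht : ∀ i, 0 < t i) (hs : ∀ i, t i + t (i + 1) + t (i + 2) = d) :
    (U d t).card = 2 * (G d t).card := by
  classical
  rw [U, card_union_of_disjoint, card_image_of_injOn (al_inj ht hs),
    card_image_of_injOn (be_inj ht hs)]
  · ring
  · rw [disjoint_left]
    intro q h1 h2
    obtain ⟨g, hg, rfl⟩ := mem_image.mp h1
    obtain ⟨g', hg', h⟩ := mem_image.mp h2
    exact al_ne_be ht hs hg hg' h.symm

theorem U_sub : U d t ⊆ (univ : Finset (Fin 3)) ×ˢ range d := by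
  intro q hq
  rcases mem_U.mp hq with ⟨g, hg, rfl⟩ | ⟨g, hg, rfl⟩
  · exact mem_product.mpr ⟨mem_univ _, mem_range.mpr (mem_G.mp hg).1⟩
  · exact mem_product.mpr ⟨mem_univ _, mem_range.mpr (mem_G.mp hg).2.1⟩

/-- If both successors of the two ends of a line are used, they are the ends of one line. -/
theorem key (ht : ∀ i, 0 < t i) (hs : ∀ i, t i + t (i + 1) + t (i + 2) = d)
    {i : Fin 3} {x v : ℕ} (hg : (i, x, v) ∈ G d t)
    (h1 : sc d (al (i, x, v)) ∈ U d t) (h2 : sc d (be (i, x, v)) ∈ U d t) :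
    R t i ((x + 1 : ℕ) : ℝ) ((v + 1 : ℕ) : ℝ) := by
  obtain ⟨hx, hv, hv0, hR⟩ := mem_G.mp hg
  simp only at hx hv hv0 hR
  have hxd : (x : ℝ) ≤ d := by exact_mod_cast hx.le
  have hvd : (v : ℝ) ≤ d := by exact_mod_cast hv.le
  have hv1d : ((v + 1 : ℕ) : ℝ) ≤ d := by exact_mod_cast hv
  have hvp : (0 : ℝ) < v := by exact_mod_cast hv0
  have hv1p : (0 : ℝ) < ((v + 1 : ℕ) : ℝ) := by positivity
  obtain ⟨hw, hy⟩ := R_pos ht hs hR hxd hvp
  -- Step 1
  obtain ⟨x2, hx2d, hx2⟩ : ∃ x2 : ℕ, x2 < d ∧ R t i (x2 : ℝ) ((v + 1 : ℕ) : ℝ) := by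
    rw [be, sc] at h2
    simp only at h2
    split_ifs at h2 with hlt
    · rcases mem_U.mp h2 with ⟨⟨j, x', v'⟩, hg', h⟩ | ⟨⟨j, x', v'⟩, hg', h⟩
      · exfalso
        simp only [al, Prod.mk.injEq] at h
        obtain ⟨rfl, rfl⟩ := h
        obtain ⟨k1, k2, k3, k4⟩ := mem_G.mp hg'
        simp only at k1 k2 k3 k4
        have e1 := thr_lt ht hs k4 (by exact_mod_cast k1.le) (by exact_mod_cast k3)
          (by exact_mod_cast k2)
        have e2 := thr_ge ht hs hR (Nat.cast_nonneg _) hxd hvp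
        rw [fin3_a] at e1
        have e3 : (v : ℝ) * (t (i + 1) + t (i + 2)) ≤ ((v + 1 : ℕ) : ℝ) * (t (i + 1) + t (i + 2)) :=
          mul_le_mul_of_nonneg_right (by push_cast; linarith)
            (by linarith [ht (i + 1), ht (i + 2)])
        linarith
      · simp only [be, Prod.mk.injEq, add_left_inj] at h
        obtain ⟨rfl, rfl⟩ := h
        obtain ⟨k1, k2, k3, k4⟩ := mem_G.mp hg'
        exact ⟨x', k1, k4⟩
    · have hvd' : v + 1 = d := by omega
      rw [fin3_a] at h2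
      rcases mem_U.mp h2 with ⟨⟨j, x', v'⟩, hg', h⟩ | ⟨⟨j, x', v'⟩, hg', h⟩
      · simp only [al, Prod.mk.injEq] at h
        obtain ⟨rfl, rfl⟩ := h
        obtain ⟨k1, k2, k3, k4⟩ := mem_G.mp hg'
        simp only at k1 k2 k3 k4
        refine ⟨v', k2, ?_⟩
        unfold R at k4 ⊢
        rw [fin3_c, fin3_d] at k4
        rw [hvd', ← hs i]
        have h3 := ht (i + 2)
        have h4 := ht (i + 1)
        push_cast at k4
        linear_combination -k4
      · exfalso
        simp only [be, Prod.mk.injEq] at h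
        obtain ⟨k1, k2, k3, k4⟩ := mem_G.mp hg'
        simp only at k3
        omega
  have hx2d' : (x2 : ℝ) ≤ d := by exact_mod_cast hx2d.le
  obtain ⟨hw2, hy2⟩ := R_pos ht hs hx2 hx2d' hv1p
  -- `x < x2`
  have hxx2 : x < x2 := by
    have h3 : t (i + 1) + t (i + 2) - (x2 : ℝ) < t (i + 1) + t (i + 2) - x := by
      have h4 : ((v : ℝ) - t (i + 2)) * (t (i + 1) + t (i + 2) - x) =
        (((v + 1 : ℕ) : ℝ) - t (i + 2)) * (t (i + 1) + t (i + 2) - x2) := by
        unfold R at hR hx2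
        rw [hR, hx2]
      exact mono_lt hw hy hw2 h4 (by push_cast; linarith)
    have h5 : (x : ℝ) < x2 := by linarith
    exact_mod_cast h5
  rcases Nat.lt_or_ge (x + 1) x2 with hlt | hge
  · exfalso
    have hx1d : x + 1 < d := by omega
    have hx1d' : ((x + 1 : ℕ) : ℝ) ≤ d := by exact_mod_cast hx1d.le
    rw [al, sc] at h1
    simp only at h1
    rw [if_pos hx1d] at h1
    rcases mem_U.mp h1 with ⟨⟨j, x', v'⟩, hg', h⟩ | ⟨⟨j, x', v'⟩, hg', h⟩
    · simp only [al, Prod.mk.injEq] at h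
      obtain ⟨rfl, rfl⟩ := h
      obtain ⟨k1, k2, k3, k4⟩ := mem_G.mp hg'
      simp only at k1 k2 k3 k4
      obtain ⟨hw3, hy3⟩ := R_pos ht hs k4 hx1d' (by exact_mod_cast k3)
      have hv1 : (v : ℝ) - t (j + 2) < v' - t (j + 2) := by
        refine mono_lt (w := t (j + 1) + t (j + 2) - ((x + 1 : ℕ) : ℝ))
          (w' := t (j + 1) + t (j + 2) - (x : ℝ)) hy3 hw3 hy ?_ (by push_cast; linarith)
        unfold R at hR k4
        linear_combination k4 - hR
      have hv2 : (v' : ℝ) - t (j + 2) < ((v + 1 : ℕ) : ℝ) - t (j + 2) := by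
        refine mono_lt (w := t (j + 1) + t (j + 2) - (x2 : ℝ))
          (w' := t (j + 1) + t (j + 2) - ((x + 1 : ℕ) : ℝ)) hy2 hw2 hy3 ?_ ?_
        · unfold R at hx2 k4
          linear_combination hx2 - k4
        · have : ((x + 1 : ℕ) : ℝ) < x2 := by exact_mod_cast hlt
          linarith
      have e1 : (v : ℝ) < v' := by linarith
      have e2 : (v' : ℝ) < ((v + 1 : ℕ) : ℝ) := by linarith
      have e3 : v < v' := by exact_mod_cast e1
      have e4 : v' < v + 1 := by exact_mod_cast e2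
      omega
    · simp only [be, Prod.mk.injEq] at h
      obtain ⟨rfl, rfl⟩ := h
      obtain ⟨k1, k2, k3, k4⟩ := mem_G.mp hg'
      simp only at k1 k2 k3 k4
      have e1 := thr_ge ht hs k4 (Nat.cast_nonneg _) (by exact_mod_cast k1.le)
        (by exact_mod_cast k3)
      have e2 := thr_le ht hs hx2 hx2d' hv1p hv1d
      rw [fin3_a] at e2
      have e3 : ((x + 1 : ℕ) : ℝ) < x2 := by exact_mod_cast hlt
      have e4 : ((x + 1 : ℕ) : ℝ) * (t (j + 1) + t (j + 2)) < x2 * (t (j + 1) + t (j + 2)) :=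
        mul_lt_mul_of_pos_right e3 (by linarith [ht (j + 1), ht (j + 2)])
      linarith
  · have : x2 = x + 1 := by omega
    rw [← this]; exact hx2

theorem sc_inj {q q' : Fin 3 × ℕ} (hq : q.2 < d) (hq' : q'.2 < d) (h : sc d q = sc d q') :
    q = q' := by
  obtain ⟨i, x⟩ := q
  obtain ⟨i', x'⟩ := q'
  simp only at hq hq'
  unfold sc at h
  simp only at h
  split_ifs at h with h1 h2 h2 <;> simp only [Prod.mk.injEq, add_left_inj] at h ⊢
  · omega
  · omega
  · omega
  · exact ⟨h.1, by omega⟩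

/-- At most `d + 1` coded lines. -/
theorem card_G_le (ht : ∀ i, 0 < t i) (hs : ∀ i, t i + t (i + 1) + t (i + 2) = d) :
    (G d t).card ≤ d + 1 := by
  classical
  set E := (G d t).filter (fun g => R t g.1 ((g.2.1 + 1 : ℕ) : ℝ) ((g.2.2 + 1 : ℕ) : ℝ)) with hE
  set H := (G d t).filter (fun g => ¬ R t g.1 ((g.2.1 + 1 : ℕ) : ℝ) ((g.2.2 + 1 : ℕ) : ℝ)) with hH
  have hsum : E.card + H.card = (G d t).card := by
    rw [hE, hH]; exact card_filter_add_card_filter_not _
  -- `E` has at most one element per side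
  have hE3 : E.card ≤ 3 := by
    have : E.card ≤ (univ : Finset (Fin 3)).card := by
      apply card_le_card_of_injOn (fun g => g.1) (fun _ _ => mem_coe.mpr (mem_univ _))
      rintro ⟨i, x, v⟩ hg ⟨i', x', v'⟩ hg' h
      simp only at h
      subst h
      obtain ⟨k, k5⟩ := mem_filter.mp hg
      obtain ⟨l, l5⟩ := mem_filter.mp hg'
      obtain ⟨k1, k2, k3, k4⟩ := mem_G.mp k
      obtain ⟨l1, l2, l3, l4⟩ := mem_G.mp l
      simp only at k1 k2 k3 k4 k5 l1 l2 l3 l4 l5
      have hp1 := R_pos ht hs k4 (by exact_mod_cast k1.le) (by exact_mod_cast k3)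
      have hp2 := R_pos ht hs k5 (by exact_mod_cast k1) (by positivity)
      have hp3 := R_pos ht hs l4 (by exact_mod_cast l1.le) (by exact_mod_cast l3)
      have hp4 := R_pos ht hs l5 (by exact_mod_cast l1) (by positivity)
      unfold R at k4 k5 l4 l5
      push_cast at k5 l5 hp2 hp4
      obtain ⟨-, hy1⟩ := hp1
      obtain ⟨-, hy2⟩ := hp2
      obtain ⟨-, hy3⟩ := hp3
      obtain ⟨-, hy4⟩ := hp4
      have e1 : (v : ℝ) = t (i + 1) + t (i + 2) - x - 1 + t (i + 2) := by linarith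
      have e2 : (v' : ℝ) = t (i + 1) + t (i + 2) - x' - 1 + t (i + 2) := by linarith
      have e3 : ((x : ℝ) - x') * ((t (i + 1) + t (i + 2) - x) + (t (i + 1) + t (i + 2) - (x' + 1)))
          = 0 := by
        rw [e1] at k4
        rw [e2] at l4
        linear_combination l4 - k4
      rcases mul_eq_zero.mp e3 with h | h
      · have e4 : (x : ℝ) = x' := by linarith
        have e5 : x = x' := by exact_mod_cast e4
        have e6 : (v : ℝ) = v' := by rw [e1, e2, e4]
        have e7 : v = v' := by exact_mod_cast e6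
        rw [e5, e7]
      · linarith
    simpa using this
  -- charging
  have hH2 : H.card ≤ (((univ : Finset (Fin 3)) ×ˢ range d) \ U d t).card := by
    apply card_le_card_of_injOn
      (fun g => if sc d (al g) ∈ U d t then sc d (be g) else sc d (al g))
    · rintro ⟨i, x, v⟩ hg
      obtain ⟨k, k5⟩ := mem_filter.mp hg
      obtain ⟨k1, k2, k3, k4⟩ := mem_G.mp k
      simp only at k1 k2 k3 k4 k5
      have hsc : ∀ q : Fin 3 × ℕ, q.2 < d → sc d q ∈ (univ : Finset (Fin 3)) ×ˢ range d := by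
        intro q hq
        rw [mem_product]
        refine ⟨mem_univ _, mem_range.mpr ?_⟩
        unfold sc
        split_ifs <;> simp only <;> omega
      simp only [mem_coe, mem_sdiff]
      split_ifs with hif
      · refine ⟨hsc _ k2, fun h2 => ?_⟩
        exact k5 (key ht hs k hif h2)
      · exact ⟨hsc _ k1, hif⟩
    · intro g hg g' hg' h
      obtain ⟨k, -⟩ := mem_filter.mp hg
      obtain ⟨l, -⟩ := mem_filter.mp hg'
      obtain ⟨k1, k2, -, -⟩ := mem_G.mp k
      obtain ⟨l1, l2, -, -⟩ := mem_G.mp l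
      simp only at h
      split_ifs at h with hif hif' hif'
      · exact be_inj ht hs k l (sc_inj k2 l2 h)
      · exact absurd (sc_inj k2 l1 h).symm (al_ne_be ht hs l k)
      · exact absurd (sc_inj k1 l2 h) (al_ne_be ht hs k l)
      · exact al_inj ht hs k l (sc_inj k1 l1 h)
  rw [card_sdiff_of_subset U_sub, card_U ht hs, card_product, card_range] at hH2
  simp only [card_univ, Fintype.card_fin] at hH2
  have hle : 2 * (G d t).card ≤ 3 * d := by
    have := card_le_card (U_sub (d := d) (t := t))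
    rw [card_U ht hs, card_product, card_range] at this
    simpa using this
  omega

end comb

/-! ### Geometry -/

/-- The point of side `i` (from vertex `V i` to vertex `V (i+1)`) at distance `k/d` of the side. -/
noncomputable def divPt (V : Fin 3 → ℝ × ℝ) (d : ℕ) (i : Fin 3) (k : ℕ) : ℝ × ℝ :=
  AffineMap.lineMap (V i) (V (i + 1)) ((k : ℝ) / d)

/-- The division points: the `d + 1` equally spaced points of each side. -/
def divisionPoints (V : Fin 3 → ℝ × ℝ) (d : ℕ) : Set (ℝ × ℝ) :=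
  {P | ∃ i : Fin 3, ∃ k : ℕ, k ≤ d ∧ P = divPt V d i k}

/-- The lines of the Wang-Shi split: the lines through two division points that do not lie
on a common side of the triangle. -/
def IsWSLine (V : Fin 3 → ℝ × ℝ) (d : ℕ) (l : AffineSubspace ℝ (ℝ × ℝ)) : Prop :=
  ∃ P ∈ divisionPoints V d, ∃ Q ∈ divisionPoints V d,
    (∀ i : Fin 3, ¬ (P ∈ segment ℝ (V i) (V (i + 1)) ∧ Q ∈ segment ℝ (V i) (V (i + 1)))) ∧
    l = affineSpan ℝ {P, Q}

/-- For every nondegenerate triangle, every `d ≥ 1` and every point `p` of its interior, at most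
`d + 1` lines of the Wang-Shi split `WS_d` pass through `p`. -/
theorem result (V : Fin 3 → ℝ × ℝ) (hV : AffineIndependent ℝ V) (d : ℕ) (hd : 1 ≤ d)
    (p : ℝ × ℝ) (hp : p ∈ interior (convexHull ℝ (Set.range V))) :
    {l : AffineSubspace ℝ (ℝ × ℝ) | IsWSLine V d l ∧ p ∈ l}.encard ≤ ((d + 1 : ℕ) : ℕ∞) := by
  classical
  have hspan : affineSpan ℝ (Set.range V) = ⊤ := by
    rw [hV.affineSpan_eq_top_iff_card_eq_finrank_add_one]
    simp
  let b : AffineBasis (Fin 3) ℝ (ℝ × ℝ) := ⟨V, hV, hspan⟩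
  have hbV : ∀ i, b i = V i := fun _ => rfl
  have hdR : (0 : ℝ) < d := by exact_mod_cast hd
  have hpos : ∀ i, 0 < b.coord i p := by
    have h := b.interior_convexHull
    have h1 : p ∈ interior (convexHull ℝ (Set.range b)) := hp
    rw [h] at h1
    exact h1
  set t : Fin 3 → ℝ := fun i => d * b.coord i p with htdef
  have ht : ∀ i, 0 < t i := fun i => mul_pos hdR (hpos i)
  have hsum : b.coord 0 p + b.coord 1 p + b.coord 2 p = 1 := by
    have := b.sum_coord_apply_eq_one p
    rwa [Fin.sum_univ_three] at this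
  have hs : ∀ i, t i + t (i + 1) + t (i + 2) = d := by
    have h0 : t 0 + t 1 + t 2 = d := by
      simp only [htdef]; linear_combination (d : ℝ) * hsum
    intro i
    fin_cases i
    · simpa using h0
    · have : t 1 + t (1 + 1) + t (1 + 2) = d := by
        rw [show (1 + 1 : Fin 3) = 2 from rfl, show (1 + 2 : Fin 3) = 0 from rfl]; linarith
      simpa using this
    · have : t 2 + t (2 + 1) + t (2 + 2) = d := by
        rw [show (2 + 1 : Fin 3) = 0 from rfl, show (2 + 2 : Fin 3) = 1 from rfl]; linarith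
      simpa using this
  -- coordinates of division points
  have hcoord : ∀ (i : Fin 3) (s : ℝ),
      b.coord i (AffineMap.lineMap (V i) (V (i + 1)) s) = 1 - s ∧
      b.coord (i + 1) (AffineMap.lineMap (V i) (V (i + 1)) s) = s ∧
      b.coord (i + 2) (AffineMap.lineMap (V i) (V (i + 1)) s) = 0 := by
    intro i s
    have hne1 : i ≠ i + 1 := by fin_cases i <;> decide
    have hne2 : i + 2 ≠ i := by fin_cases i <;> decide
    have hne3 : i + 2 ≠ i + 1 := by fin_cases i <;> decide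
    rw [AffineMap.apply_lineMap, AffineMap.apply_lineMap, AffineMap.apply_lineMap,
      AffineMap.lineMap_apply, AffineMap.lineMap_apply, AffineMap.lineMap_apply,
      ← hbV, ← hbV, b.coord_apply_eq, b.coord_apply_eq, b.coord_apply_ne hne1,
      b.coord_apply_ne hne1.symm, b.coord_apply_ne hne2, b.coord_apply_ne hne3]
    simp only [vsub_eq_sub, smul_eq_mul, vadd_eq_add]
    refine ⟨by ring, by ring, by ring⟩
  -- the sum side by side
  have hseg : ∀ (i : Fin 3) (k : ℕ), k ≤ d → divPt V d i k ∈ segment ℝ (V i) (V (i + 1)) := by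
    intro i k hk
    rw [segment_eq_image_lineMap]
    refine ⟨(k : ℝ) / d, ⟨by positivity, ?_⟩, rfl⟩
    rw [div_le_one hdR]; exact_mod_cast hk
  have hd0 : ∀ i : Fin 3, divPt V d i 0 = V i := by
    intro i; simp [divPt]
  have hdd : ∀ i : Fin 3, divPt V d i d = divPt V d (i + 1) 0 := by
    intro i
    rw [hd0]
    simp only [divPt]
    rw [div_self hdR.ne', AffineMap.lineMap_apply_one]
  -- a line through the points `x` of side `i` and `v` of side `i + 1`
  have main : ∀ (i : Fin 3) (x v : ℕ), x < d → v < d → 0 < v →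
      p ∈ affineSpan ℝ {divPt V d i x, divPt V d (i + 1) v} → (i, x, v) ∈ G d t := by
    intro i x v hx hv hv0 hmem
    rw [mem_G]
    refine ⟨hx, hv, hv0, ?_⟩
    obtain ⟨s, hs'⟩ : ∃ s : ℝ, AffineMap.lineMap (divPt V d i x) (divPt V d (i + 1) v) s = p := by
      rw [← vsub_vadd p (divPt V d i x)] at hmem
      obtain ⟨r, hr⟩ := vadd_left_mem_affineSpan_pair.mp hmem
      refine ⟨r, ?_⟩
      rw [AffineMap.lineMap_apply, hr, vsub_vadd]
    have c0 := (hcoord i ((x : ℝ) / d)).1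
    have c1 := (hcoord i ((x : ℝ) / d)).2.1
    have c2 := (hcoord i ((x : ℝ) / d)).2.2
    have e0 := (hcoord (i + 1) ((v : ℝ) / d)).1
    have e1 := (hcoord (i + 1) ((v : ℝ) / d)).2.1
    have e2 := (hcoord (i + 1) ((v : ℝ) / d)).2.2
    rw [fin3_a] at e1
    rw [fin3_b] at e2
    have f : ∀ j, b.coord j p = (1 - s) * b.coord j (divPt V d i x) +
        s * b.coord j (divPt V d (i + 1) v) := by
      intro j
      rw [← hs', AffineMap.apply_lineMap, AffineMap.lineMap_apply]
      simp only [vsub_eq_sub, smul_eq_mul, vadd_eq_add]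
      ring
    have f0 := f i
    have f2 := f (i + 2)
    simp only [divPt] at f0 f2
    rw [fin3_a] at f0 f2
    rw [fin3_a] at e2
    rw [c0, e2] at f0
    rw [c2, e1] at f2
    have g0 : t i = (1 - s) * (d - x) := by
      simp only [htdef]
      rw [f0]; field_simp; ring
    have g2 : t (i + 2) = s * v := by
      simp only [htdef]
      rw [f2]; field_simp; ring
    have g1 : t (i + 1) + t (i + 2) = d - t i := by linarith [hs i]
    unfold R
    rw [g1, g2, g0]
    ring
  -- all the lines are coded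
  have hsub : {l : AffineSubspace ℝ (ℝ × ℝ) | IsWSLine V d l ∧ p ∈ l} ⊆
      (fun g : Fin 3 × ℕ × ℕ => affineSpan ℝ {divPt V d g.1 g.2.1, divPt V d (g.1 + 1) g.2.2}) ''
        (G d t : Set (Fin 3 × ℕ × ℕ)) := by
    rintro l ⟨⟨P, ⟨i, k, hk, rfl⟩, Q, ⟨j, m, hm, rfl⟩, hside, rfl⟩, hpl⟩
    -- normalise the endpoints
    have norm : ∀ (i : Fin 3) (k : ℕ), k ≤ d → ∃ (i' : Fin 3) (k' : ℕ), k' < d ∧
        divPt V d i k = divPt V d i' k' := by
      intro i k hk
      rcases Nat.lt_or_ge k d with h | h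
      · exact ⟨i, k, h, rfl⟩
      · have : k = d := by omega
        subst this
        exact ⟨i + 1, 0, by omega, hdd i⟩
    obtain ⟨i', k', hk', hP⟩ := norm i k hk
    obtain ⟨j', m', hm', hQ⟩ := norm j m hm
    rw [hP, hQ] at hpl hside ⊢
    have hij : j' = i' ∨ j' = i' + 1 ∨ i' = j' + 1 := by
      have : ∀ i' j' : Fin 3, j' = i' ∨ j' = i' + 1 ∨ i' = j' + 1 := by decide
      exact this i' j'
    rcases hij with rfl | rfl | rfl
    · exact absurd ⟨hseg _ _ hk'.le, hseg _ _ hm'.le⟩ (hside j')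
    · have hm0 : 0 < m' := by
        rcases Nat.eq_zero_or_pos m' with h | h
        · exfalso
          rw [h] at hside
          refine hside i' ⟨hseg _ _ hk'.le, ?_⟩
          rw [← hdd]; exact hseg _ _ le_rfl
        · exact h
      exact ⟨(i', k', m'), main i' k' m' hk' hm' hm0 hpl, rfl⟩
    · have hk0 : 0 < k' := by
        rcases Nat.eq_zero_or_pos k' with h | h
        · exfalso
          rw [h] at hside
          refine hside j' ⟨?_, hseg _ _ hm'.le⟩
          rw [← hdd]; exact hseg _ _ le_rfl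
        · exact h
      rw [Set.pair_comm] at hpl ⊢
      exact ⟨(j', m', k'), main j' m' k' hm' hk' hk0 hpl, rfl⟩
  calc {l : AffineSubspace ℝ (ℝ × ℝ) | IsWSLine V d l ∧ p ∈ l}.encard
      ≤ ((fun g : Fin 3 × ℕ × ℕ => affineSpan ℝ {divPt V d g.1 g.2.1, divPt V d (g.1 + 1) g.2.2}) ''
        (G d t : Set (Fin 3 × ℕ × ℕ))).encard := Set.encard_le_encard hsub
    _ ≤ (G d t : Set (Fin 3 × ℕ × ℕ)).encard := Set.encard_image_le _ _
    _ = ((G d t).card : ℕ∞) := Set.encard_coe_eq_coe_finsetCard _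
    _ ≤ ((d + 1 : ℕ) : ℕ∞) := by exact_mod_cast card_G_le ht hs

end Pool.Agent.Results.MP_e74ad6_co.Concurrency
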